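import Pool.Agent.Helper335.Clique.PG2

/-! # MP_6a3db1_co: blocks of rank at most `2k + 3 - m` have clique minors

Let `m ≥ 2` and let `M` be a `k`-block over `GF(q)` of rank at most `2k + 3 - m`. Then `M` has the
projective geometry of rank `m - 1` over `GF(q)`, and so `M(K_m)`, as a minor. The bound does not
depend on `q`. -/

namespace Pool.Agent.Results.MP_6a3db1_co.BlocksOfSmallRank

open Set Pool.Agent.Helper236 Pool.Agent.Helper335.ModHyp Pool.Agent.Helper335.Clique

universe u

/-- `M` is a `k`-block over the finite field `F`: a finite simple matroid, representable over `F`,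
whose critical exponent is larger than `k`. -/
def IsBlock (F : Type) [Field F] (k : ℕ) {α : Type u} (M : Matroid α) : Prop :=
  M.Finite ∧ IsSimple M ∧ Representable F M ∧ (k : ℕ∞) < critExp M (Nat.card F)

/-- **Projective geometries and complete graphs in blocks of small rank.** -/
theorem result :
    ∀ (F : Type) [Field F] [Finite F] (k m : ℕ) {α : Type u} (M : Matroid α), 2 ≤ m →
      IsBlock F k M → rk M M.E + m ≤ 2 * k + 3 →
      HasProjectiveMinor F (m - 1) M ∧ HasCliqueMinor m M := by
  rintro F _ _ k m α M hm ⟨hfin, hs, hrep, hk⟩ hle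
  obtain ⟨n, v, hv⟩ := exists_rep hrep
  obtain ⟨j, rfl⟩ : ∃ j, m = j + 2 := ⟨m - 2, by omega⟩
  have hpg : HasProjectiveMinor F (j + 1) M := adaptive_pg hs hv hk (by omega)
  exact ⟨hpg, hpg.clique (Nat.succ_pos j)⟩

end Pool.Agent.Results.MP_6a3db1_co.BlocksOfSmallRank
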