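import Pool.Agent.Helper335.Clique.Super

/-! # MP_6a3db1_co: normal, supersolvable and modular blocks contain `M(K_{k+2})`

A `k`-block over `GF(q)` which is the simplification of a quotient of a complete graph, or is
supersolvable, or has a modular hyperplane `H` such that `M|H` is not a `k`-block, contains
`M(K_{k+2})` as a restriction. The bound does not depend on `q`. -/

namespace Pool.Agent.Results.MP_6a3db1_co.NormalAndModularBlocks

open Set Pool.Agent.Helper236 Pool.Agent.Helper335.ModHyp Pool.Agent.Helper335.Clique

universe u

/-- `M` is a `k`-block over the finite field `F`: a finite simple matroid, representable over `F`,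
whose critical exponent is larger than `k`. -/
def IsBlock (F : Type) [Field F] (k : ℕ) {α : Type u} (M : Matroid α) : Prop :=
  M.Finite ∧ IsSimple M ∧ Representable F M ∧ (k : ℕ∞) < critExp M (Nat.card F)

/-- **Complete graphs in normal, supersolvable and modular blocks.** -/
theorem result :
    ∀ (F : Type) [Field F] [Finite F] (k : ℕ) {α : Type u} (M : Matroid α), IsBlock F k M →
      ((∃ n, NormalAt n M) ∨ (∃ G, IsModularChain M G) ∨
        ∃ H, IsModularHyperplane M H ∧ ¬ IsBlock F k (M.restrict H)) →
      HasCliqueRestriction (k + 2) M := by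
  rintro F _ _ k α M ⟨hfin, hs, hrep, hk⟩ (⟨n, hN⟩ | hG | ⟨H, hH, hno⟩)
  · obtain ⟨l, v, hv⟩ := exists_rep hrep
    exact normal_block hs hv hk hN
  · exact supersolvable_block M hs hrep hG hk
  · have hHE : H ⊆ M.E := hH.1.1.subset_ground
    rcases modular_clique M hs hrep hk hH with h | h
    · exfalso
      obtain ⟨n, v, hv⟩ := exists_rep hrep
      exact hno ⟨⟨M.ground_finite.subset hHE⟩, isSimple_restrict hs hHE,
        ⟨n, v, rep_restrict hv hHE⟩, h⟩
    · exact h

end Pool.Agent.Results.MP_6a3db1_co.NormalAndModularBlocks
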